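import Pool.Agent.H12.S3.Defs

/-!
# [H67 S3 WMK] MP_b39724_nt, stage 3, chapter D: most conjugators have rich letters

`wmk`: for `φ` in `FS`, `1 - wL φ ≤ 2 ^ M * ∑ x, (1 - qx c x / 2) ^ rn x φ`, where `qx c x` is one over the size of the class of `x` under `Tc c`: for a
uniform `τ` the letters at the primes counted by `rn x φ` are equal to `x` independently with probability `qx c x` (Markov for `2 ^ -X`).
-/

set_option autoImplicit false

open scoped NumberField
open IsDedekindDomain Filter Topology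
open scoped Classical

noncomputable section

namespace H67.S3

open H38.ML H63.MA H38.BB H38.BG H57.PC H57.BRA H38.AS H77.WD H77.WE H77.GL H77.PC3 H77.S0T H77.FLD H77.PLF
  H35.CF H35.UB H35.AC H51.PF H51.AC2 H51.F3 H24.RK H62.BL H86.AP H12.S3

section grp

variable {p N : ℕ} {P : Type} [Group P] [Fintype P]

/-- one over the size of the class of `x` under `Tc c` -/
def qx (c : CL p N P) (x : Px c) : ℝ :=
  (Nat.card {t : Tc c // t.1 * x.1 = x.1 * t.1} : ℝ) / Nat.card (Tc c)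

theorem qx_pos (c : CL p N P) (x : Px c) : 0 < qx c x := by
  unfold qx
  have h1 : 0 < Nat.card {t : Tc c // t.1 * x.1 = x.1 * t.1} := by
    rw [Nat.card_pos_iff]
    exact ⟨⟨⟨1, by rw [OneMemClass.coe_one, one_mul, mul_one]⟩⟩, inferInstance⟩
  have h2 : 0 < Nat.card (Tc c) := Nat.card_pos
  positivity

theorem qx_le (c : CL p N P) (x : Px c) : qx c x ≤ 1 := by
  unfold qx
  have h2 : 0 < Nat.card (Tc c) := Nat.card_pos
  rw [div_le_one (by exact_mod_cast h2)]
  exact_mod_cast Finite.card_subtype_le _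

/-- the sum over the conjugators at one prime -/
theorem cj_sum (c : CL p N P) (x : Px c) (y : P) (h : ∃ t ∈ Tc c, y = t * x.1 * t⁻¹) :
    ∑ t : Tc c, (if (t : P)⁻¹ * y * t = x.1 then (1 / 2 : ℝ) else 1) =
      (Nat.card (Tc c) : ℝ) * (1 - qx c x / 2) := by
  obtain ⟨s, hs, rfl⟩ := h
  have h2 : (0 : ℝ) < Nat.card (Tc c) := by
    have := Nat.card_pos (α := Tc c)
    exact_mod_cast this
  have h1 : ∀ t : Tc c, (if (t : P)⁻¹ * (s * x.1 * s⁻¹) * t = x.1 then (1 / 2 : ℝ) else 1) =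
      1 - (1 / 2) * (if (t : P)⁻¹ * (s * x.1 * s⁻¹) * t = x.1 then 1 else 0) := by
    intro t
    split_ifs <;> norm_num
  rw [Finset.sum_congr rfl fun t _ => h1 t, Finset.sum_sub_distrib, ← Finset.mul_sum,
    Finset.sum_const, Finset.card_univ, nsmul_eq_mul, mul_one, ← Finset.sum_filter,
    Finset.sum_const, nsmul_eq_mul, mul_one]
  have h3 : ((Finset.univ : Finset (Tc c)).filter fun t : Tc c =>
      (t : P)⁻¹ * (s * x.1 * s⁻¹) * t = x.1).card =
      Nat.card {t : Tc c // t.1 * x.1 = x.1 * t.1} := by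
    rw [Nat.card_eq_fintype_card, Fintype.card_subtype]
    refine Finset.card_bij (fun (t : Tc c) _ => (⟨s, hs⟩ : Tc c)⁻¹ * t) ?_ ?_ ?_
    · intro t ht
      rw [Finset.mem_filter] at ht ⊢
      refine ⟨Finset.mem_univ _, ?_⟩
      have h4 : s⁻¹ * (t : P) * x.1 = x.1 * (s⁻¹ * (t : P)) := by
        have h5 := ht.2
        calc s⁻¹ * (t : P) * x.1 = s⁻¹ * (t : P) * ((t : P)⁻¹ * (s * x.1 * s⁻¹) * t) := by rw [h5]
          _ = x.1 * (s⁻¹ * (t : P)) := by group
      exact h4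
    · intro a _ b _ hab
      exact mul_left_cancel hab
    · intro u hu
      rw [Finset.mem_filter] at hu
      have h4 : (u : P) * x.1 = x.1 * u := hu.2
      refine ⟨(⟨s, hs⟩ : Tc c) * u, ?_, inv_mul_cancel_left _ _⟩
      rw [Finset.mem_filter]
      refine ⟨Finset.mem_univ _, ?_⟩
      change (s * (u : P))⁻¹ * (s * x.1 * s⁻¹) * (s * (u : P)) = x.1
      calc (s * (u : P))⁻¹ * (s * x.1 * s⁻¹) * (s * (u : P)) = (u : P)⁻¹ * (x.1 * u) := by group
        _ = (u : P)⁻¹ * (u * x.1) := by rw [h4]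
        _ = x.1 := by group
  rw [h3]
  unfold qx
  rw [Nat.card_eq_fintype_card (α := Tc c)]
  rw [Nat.card_eq_fintype_card (α := Tc c)] at h2
  field_simp

theorem cj_sum0 (c : CL p N P) (x : Px c) (y : P) :
    ∑ t : Tc c, (if (t : P)⁻¹ * y * t = x.1 then (1 / 2 : ℝ) else 1) ≤
      (Nat.card (Tc c) : ℝ) := by
  refine (Finset.sum_le_sum fun t _ => (?_ : _ ≤ (1 : ℝ))).trans ?_
  · split_ifs <;> norm_num
  · rw [Finset.sum_const, Finset.card_univ, nsmul_eq_mul, mul_one, Nat.card_eq_fintype_card]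

end grp

section fib

variable {K : IntermediateField ℚ QBar} [NumberField K] {p N : ℕ} {ζ : K} {D : RD0 K p ζ}
  {P : Type} [Group P] [Fintype P]

theorem wL_nn (c : CL p N P) {L : LDs D QBar} (Fr : FR L) (φb : Gal(QBar/K) →* P)
    (E : Finset (Pl K)) (M : ℕ) (T₀ Y : ℝ) (φ : Gal(QBar/K) →* P) :
    0 ≤ wL c Fr φb E M T₀ Y φ := by
  unfold wL
  refine div_nonneg (Finset.sum_nonneg fun τ _ => ?_) (by positivity)
  split_ifs <;> norm_num

theorem card_cj (c : CL p N P) (Z : Finset (Pl K)) :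
    (Fintype.card (↥Z → Tc c) : ℝ) = (Nat.card (Tc c) : ℝ) ^ Z.card := by
  rw [Fintype.card_fun, Fintype.card_coe, Nat.card_eq_fintype_card]
  push_cast
  rfl

theorem wL_le (c : CL p N P) {L : LDs D QBar} (Fr : FR L) (φb : Gal(QBar/K) →* P)
    (E : Finset (Pl K)) (M : ℕ) (T₀ Y : ℝ) (φ : Gal(QBar/K) →* P) :
    wL c Fr φb E M T₀ Y φ ≤ 1 := by
  unfold wL
  have h2 : (0 : ℝ) < (Nat.card (Tc c) : ℝ) ^ (ZZ D Y \ E).card := by
    have := Nat.card_pos (α := Tc c)
    positivity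
  rw [div_le_one h2, ← card_cj]
  refine (Finset.sum_le_sum fun τ _ => (?_ : _ ≤ (1 : ℝ))).trans ?_
  · split_ifs <;> norm_num
  · rw [Finset.sum_const, Finset.card_univ, nsmul_eq_mul, mul_one]

/-- the letter `x` at a large split prime -/
def lx (c : CL p N P) (L : LDs D QBar) (φ : Gal(QBar/K) →* P) (W : Pl K → Prop) (x : Px c)
    (v : Pl K) (t : P) : Prop := W v ∧ t⁻¹ * φ (L.t v) * t = x.1

theorem lft_some (c : CL p N P) (L : LDs D QBar) (Z : Finset (Pl K)) (φ : Gal(QBar/K) →* P)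
    (τ : Pl K → P) (x : Px c) (v : Pl K) :
    lft c L Z φ τ v = some x ↔ v ∈ Z ∧ (τ v)⁻¹ * φ (L.t v) * τ v = x.1 := by
  unfold H12.S3.lft
  constructor
  · intro h
    split_ifs at h with h1
    rw [Option.some_inj] at h
    exact ⟨h1.1, by rw [← h]⟩
  · rintro ⟨h1, h2⟩
    have hx : x.1 ≠ 1 := by
      obtain ⟨i, hi⟩ := x.2
      intro h3
      rw [h3, isConj_one_right] at hi
      exact c.ne i hi
    have h3 : φ (L.t v) ≠ 1 := by
      intro h4
      rw [h4, mul_one, inv_mul_cancel] at h2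
      exact hx h2.symm
    have h4 : ∃ i, IsConj ((τ v)⁻¹ * φ (L.t v) * τ v) (c.g i) := by rw [h2]; exact x.2
    rw [dif_pos ⟨h1, h3, h4⟩, Option.some_inj]
    exact Subtype.ext h2

/-- **most conjugators have rich letters** -/
theorem wmk0 (c : CL p N P) {L : LDs D QBar} (Fr : FR L) (φb : Gal(QBar/K) →* P)
    (E : Finset (Pl K)) (M : ℕ) (T₀ Y : ℝ) (φ : Gal(QBar/K) →* P)
    (hn : ∀ X : Finset (Pl K), (∀ v ∈ X, v ∉ D.S0 ∧ v ∉ E ∧ φ (L.t v) ≠ 1) → nr X ≤ Y) :
    1 - wL c Fr φb E M T₀ Y φ ≤ 2 ^ M * ∑ x, (1 - qx c x / 2) ^ rn c Fr φb E T₀ x φ := by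
  set Z := ZZ D Y \ E with hZ
  have hc : (0 : ℝ) < (Nat.card (Tc c) : ℝ) := by
    have := Nat.card_pos (α := Tc c)
    exact_mod_cast this
  have h2 : (0 : ℝ) < (Nat.card (Tc c) : ℝ) ^ Z.card := by positivity
  have hZS : ∀ v ∈ Z, v ∉ D.S0 ∧ v ∉ E := by
    intro v hv
    rw [hZ, Finset.mem_sdiff] at hv
    have h3 := hv.1
    unfold ZZ at h3
    rw [Finset.mem_filter] at h3
    exact ⟨h3.2.1, hv.2⟩
  set W : Pl K → Prop := fun v => T₀ < (nm v : ℝ) ∧ φb (Fr.F v) = 1 with hW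
  -- the letters are rich if every count is
  have h3 : ∀ τ : ↥Z → Tc c, lft c L Z φ (xt τ) ∈ RRL c Fr φb E M T₀ Y ↔
      ∀ x : Px c, M ≤ (Z.filter fun v => lx c L φ W x v (xt τ v)).card := by
    intro τ
    unfold RRL
    rw [← hZ, Finset.mem_filter]
    have h4 : lft c L Z φ (xt τ) ∈ Cf Z (Px c) := by
      rw [mem_cf]
      intro v hv
      unfold H12.S3.lft
      rw [dif_neg fun h => hv h.1]
    have h5 : nr (sp Z (lft c L Z φ (xt τ))) ≤ Y := by
      refine hn _ fun v hv => ?_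
      rw [mem_sp] at hv
      refine ⟨(hZS v hv.1).1, (hZS v hv.1).2, fun h6 => hv.2 ?_⟩
      unfold H12.S3.lft
      rw [dif_neg fun h => h.2.1 h6]
    have h6 : ∀ x : Px c, ((pl Z (lft c L Z φ (xt τ)) x).filter fun v =>
        T₀ < (nm v : ℝ) ∧ φb (Fr.F v) = 1) = Z.filter fun v => lx c L φ W x v (xt τ v) := by
      intro x
      ext v
      rw [Finset.mem_filter, mem_pl, lft_some, Finset.mem_filter]
      unfold lx
      rw [hW]
      tauto
    constructor
    · rintro ⟨-, h7, -⟩ x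
      rw [← h6]
      exact h7 x
    · intro h7
      refine ⟨h4, fun x => ?_, h5⟩
      rw [h6]
      exact h7 x
  -- union bound and Markov
  have h4 : ∀ τ : ↥Z → Tc c,
      (1 : ℝ) - (if lft c L Z φ (xt τ) ∈ RRL c Fr φb E M T₀ Y then 1 else 0) ≤
        2 ^ M * ∑ x : Px c, ∏ v : ↥Z, (if lx c L φ W x v (τ v) then (1 / 2 : ℝ) else 1) := by
    intro τ
    have h5 : ∀ x : Px c, ∏ v : ↥Z, (if lx c L φ W x v (τ v) then (1 / 2 : ℝ) else 1) =
        (1 / 2) ^ (Z.filter fun v => lx c L φ W x v (xt τ v)).card := by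
      intro x
      have h6 : ∀ v : ↥Z, (if lx c L φ W x v (τ v) then (1 / 2 : ℝ) else 1) =
          (fun v : Pl K => if lx c L φ W x v (xt τ v) then (1 / 2 : ℝ) else 1) v := by
        intro v
        have h7 : xt τ (v : Pl K) = (τ v : P) := by
          unfold H12.S3.xt
          rw [dif_pos v.2]
        beta_reduce
        rw [h7]
      rw [Finset.prod_congr rfl fun v _ => h6 v, Finset.prod_coe_sort Z (fun v : Pl K =>
        if lx c L φ W x v (xt τ v) then (1 / 2 : ℝ) else 1), Finset.prod_ite, Finset.prod_const,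
        Finset.prod_const, one_pow, mul_one]
    have h6 : ∀ x : Px c, (0 : ℝ) ≤ ∏ v : ↥Z, (if lx c L φ W x v (τ v) then (1 / 2 : ℝ) else 1) := by
      intro x
      rw [h5]
      positivity
    split_ifs with h7
    · rw [sub_self]
      exact mul_nonneg (by positivity) (Finset.sum_nonneg fun x _ => h6 x)
    · rw [sub_zero]
      rw [h3, not_forall] at h7
      obtain ⟨x, h8⟩ := h7
      rw [not_le] at h8
      have h9 : (1 : ℝ) ≤ 2 ^ M * ∏ v : ↥Z, (if lx c L φ W x v (τ v) then (1 / 2 : ℝ) else 1) := by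
        rw [h5]
        obtain ⟨k, hk⟩ := Nat.exists_eq_add_of_lt h8
        rw [hk]
        rw [one_div, inv_pow, ← div_eq_mul_inv, le_div_iff₀ (by positivity), one_mul]
        exact pow_le_pow_right₀ (by norm_num) (by omega)
      refine h9.trans (mul_le_mul_of_nonneg_left ?_ (by positivity))
      exact Finset.single_le_sum (f := fun x : Px c => ∏ v : ↥Z,
        (if lx c L φ W x v (τ v) then (1 / 2 : ℝ) else 1)) (fun x _ => h6 x) (Finset.mem_univ x)
  -- the mean
  have h5 : ∀ x : Px c, ∑ τ : ↥Z → Tc c, ∏ v : ↥Z,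
      (if lx c L φ W x v (τ v) then (1 / 2 : ℝ) else 1) ≤
        (Nat.card (Tc c) : ℝ) ^ Z.card * (1 - qx c x / 2) ^ rn c Fr φb E T₀ x φ := by
    intro x
    have hq : 0 ≤ 1 - qx c x / 2 := by have := qx_le c x; linarith
    have hq1 : 1 - qx c x / 2 ≤ 1 := by have := qx_pos c x; linarith
    have e1 : ∑ τ : ↥Z → Tc c, ∏ v : ↥Z, (if lx c L φ W x v (τ v) then (1 / 2 : ℝ) else 1) =
        ∏ v : ↥Z, ∑ t : Tc c, (if lx c L φ W x v t then (1 / 2 : ℝ) else 1) := by
      rw [Finset.prod_univ_sum, Fintype.piFinset_univ]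
    rw [e1]
    -- the primes counted by `rn`
    have e2 : ∀ v : ↥Z, ∑ t : Tc c, (if lx c L φ W x v t then (1 / 2 : ℝ) else 1) ≤
        (Nat.card (Tc c) : ℝ) *
          (if W v ∧ ∃ t ∈ Tc c, φ (L.t v) = t * x.1 * t⁻¹ then (1 - qx c x / 2) else 1) := by
      intro v
      by_cases hWv : W v
      · have e3 : ∀ t : Tc c, (if lx c L φ W x v t then (1 / 2 : ℝ) else 1) =
            (if (t : P)⁻¹ * φ (L.t v) * t = x.1 then (1 / 2 : ℝ) else 1) := by
          intro t
          unfold lx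
          rw [eq_true hWv, true_and]
        rw [Finset.sum_congr rfl fun t _ => e3 t]
        split_ifs with h7
        · exact (cj_sum c x _ h7.2).le
        · rw [mul_one]
          exact cj_sum0 c x _
      · rw [if_neg fun h => hWv h.1, mul_one]
        have e3 : ∀ t : Tc c, (if lx c L φ W x v t then (1 / 2 : ℝ) else 1) = 1 := by
          intro t
          rw [if_neg fun h => hWv h.1]
        rw [Finset.sum_congr rfl fun t _ => e3 t, Finset.sum_const, Finset.card_univ,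
          nsmul_eq_mul, mul_one, Nat.card_eq_fintype_card]
    have e4 : ∀ v : ↥Z, (0 : ℝ) ≤ ∑ t : Tc c, (if lx c L φ W x v t then (1 / 2 : ℝ) else 1) :=
      fun v => Finset.sum_nonneg fun t _ => by split_ifs <;> norm_num
    refine (Finset.prod_le_prod (fun v _ => e4 v) fun v _ => e2 v).trans ?_
    rw [Finset.prod_mul_distrib, Finset.prod_const, Finset.card_univ, Fintype.card_coe]
    refine mul_le_mul_of_nonneg_left ?_ h2.le
    rw [Finset.prod_coe_sort Z (fun v : Pl K =>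
      if W v ∧ ∃ t ∈ Tc c, φ (L.t v) = t * x.1 * t⁻¹ then (1 - qx c x / 2) else 1),
      Finset.prod_ite, Finset.prod_const, Finset.prod_const, one_pow, mul_one]
    refine pow_le_pow_of_le_one hq hq1 ?_
    unfold H12.S3.rn
    have hx : x.1 ≠ 1 := by
      obtain ⟨i, hi⟩ := x.2
      intro h3
      rw [h3, isConj_one_right] at hi
      exact c.ne i hi
    have e5 : {v : Pl K | v ∉ E ∧ T₀ < (nm v : ℝ) ∧ D.Gd v ∧ φb (Fr.F v) = 1 ∧
        ∃ t ∈ Tc c, φ (L.t v) = t * x.1 * t⁻¹} ⊆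
        ((Z.filter fun v => W v ∧ ∃ t ∈ Tc c, φ (L.t v) = t * x.1 * t⁻¹ : Finset (Pl K)) :
          Set (Pl K)) := by
      rintro v ⟨h7, h8, h9, h10, h11⟩
      rw [Finset.mem_coe, Finset.mem_filter]
      refine ⟨?_, ⟨h8, h10⟩, h11⟩
      rw [hZ, Finset.mem_sdiff]
      refine ⟨?_, h7⟩
      unfold ZZ
      rw [Finset.mem_filter, H57.AN.mem_PB]
      refine ⟨?_, h9⟩
      have h12 : φ (L.t v) ≠ 1 := by
        obtain ⟨t, -, h13⟩ := h11
        rw [h13]
        intro h14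
        rw [conj_eq_one_iff] at h14
        exact hx h14
      have h13 := hn {v} fun w hw => by
        rw [Finset.mem_singleton] at hw
        rw [hw]
        exact ⟨h9.1, h7, h12⟩
      unfold nr at h13
      rwa [Finset.prod_singleton] at h13
    have e6 := Set.ncard_le_ncard e5 (Finset.finite_toSet _)
    rwa [Set.ncard_coe_finset] at e6
  have h6 : 1 - wL c Fr φb E M T₀ Y φ = (∑ τ : ↥Z → Tc c,
      ((1 : ℝ) - (if lft c L Z φ (xt τ) ∈ RRL c Fr φb E M T₀ Y then 1 else 0))) /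
        (Nat.card (Tc c) : ℝ) ^ Z.card := by
    unfold wL
    rw [← hZ, Finset.sum_sub_distrib, Finset.sum_const, Finset.card_univ, nsmul_eq_mul, mul_one,
      card_cj, sub_div, div_self h2.ne']
  rw [h6, div_le_iff₀ h2]
  refine (Finset.sum_le_sum fun τ _ => h4 τ).trans ?_
  rw [← Finset.mul_sum, Finset.sum_comm, mul_assoc]
  refine mul_le_mul_of_nonneg_left ?_ (by positivity)
  rw [Finset.sum_mul]
  refine Finset.sum_le_sum fun x _ => (h5 x).trans (le_of_eq ?_)
  ring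

theorem cj_ne (L : LDs D QBar) (s : Pl K → Gal(QBar/K)) (φ : Gal(QBar/K) →* P) {v : Pl K}
    (hv : v ∉ D.S0) : φ ((cjL L s).t v) ≠ 1 ↔ φ (L.t v) ≠ 1 := by
  rw [cj_t L s hv, map_mul, map_mul, map_inv]
  exact not_congr conj_eq_one_iff

/-- **most conjugators have rich letters**, for `FS` and all places -/
theorem wmk (c : CL p N P) {L : LDs D QBar} (Fr : FR L) (Q : DP K QBar)
    {φb φ' : Gal(QBar/K) →* P} {E : Finset (Pl K)} (M : ℕ) (T₀ : ℝ) {Y : ℝ}
    {φ : Gal(QBar/K) →* P} (hφ : φ ∈ FS L Fr Q c φb φ' E Y) (s : Pl K → Gal(QBar/K)) :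
    1 - wL c (cjF Fr s) φb E M T₀ Y φ ≤
      2 ^ M * ∑ x, (1 - qx c x / 2) ^ rn c (cjF Fr s) φb E T₀ x φ := by
  refine wmk0 c (cjF Fr s) φb E M T₀ Y φ fun X hX => hφ.2.2.2.2.2.2 X fun v hv => ?_
  obtain ⟨h1, h2, h3⟩ := hX v hv
  exact ⟨h1, h2, (cj_ne L s φ h1).1 h3⟩

end fib

end H67.S3
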